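import Pool.Agent.Helper26.HB.Goals

set_option autoImplicit false

namespace Pool.Agent.Helper33.HB

open Finset Pool.Agent.Helper26.HB

/-- The total variation of one coordinate. -/
lemma tv {M : ℕ} {w : ℕ → ℝ} {K : ℝ} {Bad : Finset ℕ} (hBad : Bad ⊆ range M)
    (h1 : ∀ j < M, |w (j + 1) - w j| ≤ K) (h2 : ∀ j < M, j ∉ Bad → w j ≤ w (j + 1))
    (hM : w M = w 0) : ∑ j ∈ range M, |w (j + 1) - w j| ≤ 2 * (K * Bad.card) := by
  have h3 : ∀ j ∈ range M, |w (j + 1) - w j| ≤
      (w (j + 1) - w j) + (if j ∈ Bad then 2 * K else 0) := by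
    intro j hj
    have hj' := mem_range.1 hj
    have h4 := h1 j hj'
    split_ifs with hb
    · have := (abs_le.1 h4).1
      linarith
    · rw [abs_of_nonneg (sub_nonneg.2 (h2 j hj' hb)), add_zero]
  have h4 := sum_le_sum h3
  rw [sum_add_distrib, sum_range_sub, hM, sub_self, zero_add] at h4
  refine h4.trans (le_of_eq ?_)
  rw [sum_ite_mem, inter_eq_right.2 hBad, sum_const, nsmul_eq_mul]
  ring

/-- **Packet A3**. -/
theorem gA3 : G_A3 := by
  intro d B R
  obtain ⟨b, hb⟩ : ∃ b : Fin d → Fin d → ℝ, b = fun i k =>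
    B (R (fun j => if i = j then 1 else 0)) (R (fun j => if k = j then 1 else 0)) := ⟨_, rfl⟩
  obtain ⟨C0, hC0⟩ : ∃ C0 : ℝ, C0 = ∑ i, ∑ k, |b i k| := ⟨_, rfl⟩
  have hC00 : 0 ≤ C0 := by
    rw [hC0]
    exact sum_nonneg fun i _ => sum_nonneg fun k _ => abs_nonneg _
  have hB : ∀ x y : E d, |B (R x) (R y)| ≤ C0 * ((∑ i, |x i|) * (∑ i, |y i|)) := by
    intro x y
    have hx := pi_eq_sum_univ x
    have hy := pi_eq_sum_univ y
    have e1 : B (R x) (R y) = ∑ i, ∑ k, x i * y k * b i k := by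
      conv_lhs => rw [hx, hy]
      rw [map_sum, map_sum, LinearMap.sum_apply]
      refine sum_congr rfl fun i _ => ?_
      rw [map_sum, map_sum]
      refine sum_congr rfl fun k _ => ?_
      rw [map_smul, map_smul, map_smul, map_smul, LinearMap.smul_apply, hb]
      simp only [smul_eq_mul]
      ring
    rw [e1]
    calc |∑ i, ∑ k, x i * y k * b i k| ≤ ∑ i, |∑ k, x i * y k * b i k| := abs_sum_le_sum_abs _ _
      _ ≤ ∑ i, ∑ k, |x i * y k * b i k| := sum_le_sum fun i _ => abs_sum_le_sum_abs _ _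
      _ ≤ ∑ i, ∑ k, ((∑ i, |x i|) * (∑ i, |y i|)) * |b i k| := by
          refine sum_le_sum fun i _ => sum_le_sum fun k _ => ?_
          rw [abs_mul, abs_mul]
          refine mul_le_mul_of_nonneg_right ?_ (abs_nonneg _)
          refine mul_le_mul ?_ ?_ (abs_nonneg _) (sum_nonneg fun i _ => abs_nonneg _)
          · exact single_le_sum (f := fun i => |x i|) (fun i _ => abs_nonneg _) (mem_univ i)
          · exact single_le_sum (f := fun i => |y i|) (fun i _ => abs_nonneg _) (mem_univ k)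
      _ = C0 * ((∑ i, |x i|) * (∑ i, |y i|)) := by
          rw [hC0]
          simp only [← mul_sum]
          ring
  refine ⟨4 * C0 * d ^ 2, fun M W K Bad hK hBad h1 h2 hM => ?_⟩
  obtain ⟨T, hT⟩ : ∃ T : ℝ, T = ∑ j ∈ range M, ∑ i, |(W (j + 1) - W j) i| := ⟨_, rfl⟩
  have hT0 : 0 ≤ T := by
    rw [hT]
    exact sum_nonneg fun i _ => sum_nonneg fun k _ => abs_nonneg _
  have hT1 : T ≤ d * (2 * (K * Bad.card)) := by
    rw [hT, sum_comm]
    calc ∑ i, ∑ j ∈ range M, |(W (j + 1) - W j) i| ≤ ∑ _i : Fin d, 2 * (K * (Bad.card : ℝ)) := by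
          refine sum_le_sum fun i _ => ?_
          exact tv (w := fun j => W j i) hBad (fun j hj => h1 j hj i)
            (fun j hj hb => h2 j hj hb i) (congrFun hM i)
      _ = d * (2 * (K * Bad.card)) := by
          rw [sum_const, card_univ, Fintype.card_fin, nsmul_eq_mul]
  have hT2 : ∀ j ≤ M, ∑ i, |(W j - W 0) i| ≤ T := by
    intro j hj
    have h3 : ∀ i, |(W j - W 0) i| ≤ ∑ l ∈ range j, |(W (l + 1) - W l) i| := by
      intro i
      have h4 : (W j - W 0) i = ∑ l ∈ range j, (W (l + 1) - W l) i := by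
        simp only [Pi.sub_apply]
        exact (sum_range_sub (fun l => W l i) j).symm
      rw [h4]
      exact abs_sum_le_sum_abs _ _
    calc ∑ i, |(W j - W 0) i| ≤ ∑ i, ∑ l ∈ range j, |(W (l + 1) - W l) i| :=
          sum_le_sum fun i _ => h3 i
      _ = ∑ l ∈ range j, ∑ i, |(W (l + 1) - W l) i| := sum_comm
      _ ≤ T := by
          rw [hT]
          exact sum_le_sum_of_subset_of_nonneg (range_mono hj)
            fun l _ _ => sum_nonneg fun i _ => abs_nonneg _
  calc ∑ j ∈ range M, B (R (W j - W 0)) (R (W (j + 1) - W j))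
      ≤ ∑ j ∈ range M, C0 * (T * ∑ i, |(W (j + 1) - W j) i|) := by
        refine sum_le_sum fun j hj => ?_
        refine (le_abs_self _).trans ((hB _ _).trans ?_)
        refine mul_le_mul_of_nonneg_left ?_ hC00
        exact mul_le_mul_of_nonneg_right (hT2 j (mem_range.1 hj).le)
          (sum_nonneg fun i _ => abs_nonneg _)
    _ = C0 * T ^ 2 := by
        rw [← mul_sum, ← mul_sum, ← hT]
        ring
    _ ≤ C0 * (d * (2 * (K * Bad.card))) ^ 2 :=
        mul_le_mul_of_nonneg_left (pow_le_pow_left₀ hT0 hT1 2) hC00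
    _ = 4 * C0 * d ^ 2 * (K * Bad.card) ^ 2 := by ring

end Pool.Agent.Helper33.HB
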